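import Pool.Agent.Helper81.LT.Inc

/-!
MP_c20641_lc, packet ISEG: the initial segment is a model of `PA`.
-/

namespace Pool.Agent.Helper62.LT

open FirstOrder Language Pool.Agent.Helper81.LT

/-- the axioms without `sub` are universal -/
theorem base_universal {σ : LA.Sentence} (h : PABase σ) :
    BoundedFormula.IsUniversal σ ∨
      σ = (∀' ∀' (ltF (X 2 0) (X 2 1) ⟹ ∃' ((X 3 0 + X 3 2) =' (X 3 1)))) := by
  cases h
  case sub => exact Or.inr rfl
  all_goals left
  case add_assoc => exact .all (.all (.all (.of_isQF (.of_isAtomic (.equal _ _)))))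
  case add_comm => exact .all (.all (.of_isQF (.of_isAtomic (.equal _ _))))
  case add_zero => exact .all (.of_isQF (.of_isAtomic (.equal _ _)))
  case mul_assoc => exact .all (.all (.all (.of_isQF (.of_isAtomic (.equal _ _)))))
  case mul_comm => exact .all (.all (.of_isQF (.of_isAtomic (.equal _ _))))
  case mul_zero => exact .all (.of_isQF (.of_isAtomic (.equal _ _)))
  case mul_one => exact .all (.of_isQF (.of_isAtomic (.equal _ _)))
  case mul_add => exact .all (.all (.all (.of_isQF (.of_isAtomic (.equal _ _)))))
  case lt_trans =>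
    exact .all (.all (.all (.of_isQF (.imp (.of_isAtomic (.rel _ _))
      (.imp (.of_isAtomic (.rel _ _)) (.of_isAtomic (.rel _ _)))))))
  case lt_irrefl =>
    exact .all (.of_isQF (.not (.of_isAtomic (.rel _ _))))
  case lt_total =>
    exact .all (.all (.of_isQF (.sup (.sup (.of_isAtomic (.rel _ _)) (.of_isAtomic (.equal _ _)))
      (.of_isAtomic (.rel _ _)))))
  case add_lt =>
    exact .all (.all (.all (.of_isQF (.imp (.of_isAtomic (.rel _ _)) (.of_isAtomic (.rel _ _))))))
  case mul_lt =>
    exact .all (.all (.all (.of_isQF (.imp (.of_isAtomic (.rel _ _))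
      (.imp (.of_isAtomic (.rel _ _)) (.of_isAtomic (.rel _ _)))))))
  case zero_lt_one =>
    exact .of_isQF (.of_isAtomic (.rel _ _))
  case discrete =>
    exact .all (.of_isQF (.imp (.of_isAtomic (.rel _ _))
      (.sup (.of_isAtomic (.equal _ _)) (.of_isAtomic (.rel _ _)))))
  case nonneg =>
    exact .all (.of_isQF (.sup (.of_isAtomic (.equal _ _)) (.of_isAtomic (.rel _ _))))

/-- the zero of an `LA`-structure -/
def Zero' (N : Type) [LA.Structure N] : N :=
  Structure.funMap (L := LA) (AFun.zero : LA.Functions 0) ![]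

theorem realize_induction {N : Type} [LA.Structure N] {k : ℕ} (φ : LA.Formula (Fin k ⊕ Unit))
    (h : ∀ p : Fin k → N, φ.Realize (Sum.elim p fun _ => Zero' N) →
      (∀ y, φ.Realize (Sum.elim p fun _ => y) →
        φ.Realize (Sum.elim p fun _ => Add' N y (One' N))) →
      ∀ y, φ.Realize (Sum.elim p fun _ => y)) : N ⊨ induction φ := by
  unfold induction
  rw [Sentence.Realize, Formula.realize_iAlls]
  intro p
  rw [Formula.realize_relabel, Formula.realize_imp, Formula.realize_imp]
  intro h0 h1
  rw [Formula.realize_iAlls] at h1 ⊢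
  have hp : ((fun a => Sum.elim (default : Empty → N) p a) ∘ Sum.inr) = p := rfl
  rw [hp] at h0 h1 ⊢
  intro y
  have h0' : φ.Realize (Sum.elim p fun _ => Zero' N) := by
    rw [Formula.Realize, BoundedFormula.realize_subst, ← Formula.Realize] at h0
    convert h0 using 1
    funext a
    rcases a with a | a
    · rfl
    · change Zero' N = Structure.funMap (L := LA) (AFun.zero : LA.Functions 0) _
      unfold Zero'
      congr 1
      funext i
      exact i.elim0
  have h1' : ∀ y, φ.Realize (Sum.elim p fun _ => y) →
      φ.Realize (Sum.elim p fun _ => Add' N y (One' N)) := by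
    intro y hy
    have h2 := h1 (fun _ => y)
    rw [Formula.realize_imp] at h2
    have h3 := h2 (by
      convert hy using 1)
    rw [Formula.Realize, BoundedFormula.realize_subst, ← Formula.Realize] at h3
    convert h3 using 1
    funext a
    rcases a with a | a
    · rfl
    · change Structure.funMap (L := LA) (AFun.add : LA.Functions 2) _ =
        Structure.funMap (L := LA) (AFun.add : LA.Functions 2) _
      congr 1
      funext i
      refine Fin.cases ?_ (fun i => ?_) i
      · rfl
      · have hi : i = 0 := Subsingleton.elim _ _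
        subst hi
        change Structure.funMap (L := LA) (AFun.one : LA.Functions 0) _ =
          Structure.funMap (L := LA) (AFun.one : LA.Functions 0) _
        congr 1
        funext i
        exact i.elim0
  have h4 := h p h0' h1' (y ())
  convert h4 using 1

attribute [local instance] stdStr

theorem iseg (hC : CONV) (hF : BFORM) (hT : TRU) : ISEG := by
  intro P M S x k b hD
  obtain ⟨cs, lo, so, hS, hP⟩ := hC M S hD.pa
  subst hS
  have hmono1 : ∀ i, x i < x (i + 1) := hD.mono
  have hmono : StrictMono x := strictMono_nat_of_lt_succ hmono1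
  have h1x : (1 : M) < x 1 := hD.one_lt
  have hgrow : ∀ i, ∀ u, u < x i → ∀ v, v < x i → u + v < x (i + 1) ∧ u * v < x (i + 1) := hD.grow
  let I : LA.Substructure M :=
    { carrier := {y | ∃ i, y < x i}
      fun_mem := by
        intro n f
        cases f with
        | zero => exact fun v _ => ⟨1, lt_trans zero_lt_one h1x⟩
        | one => exact fun v _ => ⟨1, h1x⟩
        | add =>
          intro v hv
          obtain ⟨i, hi⟩ := hv 0
          obtain ⟨j, hj⟩ := hv 1
          exact ⟨max i j + 1, (hgrow (max i j) (v 0) (lt_of_lt_of_le hi (hmono.monotone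
            (le_max_left i j))) (v 1) (lt_of_lt_of_le hj (hmono.monotone
            (le_max_right i j)))).1⟩
        | mul =>
          intro v hv
          obtain ⟨i, hi⟩ := hv 0
          obtain ⟨j, hj⟩ := hv 1
          exact ⟨max i j + 1, (hgrow (max i j) (v 0) (lt_of_lt_of_le hi (hmono.monotone
            (le_max_left i j))) (v 1) (lt_of_lt_of_le hj (hmono.monotone
            (le_max_right i j)))).2⟩ }
  have hI : ∀ y, y ∈ I ↔ ∃ i, y < x i := fun y => Iff.rfl
  have hTI := hT P M x k b hD I hI
  refine ⟨I, hI, ?_⟩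
  rw [Theory.model_iff]
  rintro σ (hσ | ⟨m, φ, rfl⟩)
  · rcases base_universal hσ with hU | rfl
    · have hMσ : M ⊨ σ := (Theory.model_iff _).1 hD.pa σ (Or.inl hσ)
      have h1 := hU.realize_embedding (I.subtype : I ↪[LA] M) (v := Empty.elim) (xs := default)
      refine (iff_of_eq ?_).mp (h1 ?_)
      · rw [Sentence.Realize, Formula.Realize]
        congr 1
        funext a
        exact a.elim
      · rw [Sentence.Realize, Formula.Realize] at hMσ
        have e1 : (I.subtype : I ↪[LA] M) ∘ (Empty.elim : Empty → I) = (default : Empty → M) :=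
          funext fun a => a.elim
        have e2 : (I.subtype : I ↪[LA] M) ∘ (default : Fin 0 → I) = (default : Fin 0 → M) :=
          funext fun a => a.elim0
        rw [e1, e2]
        exact hMσ
    · rw [Sentence.Realize, Formula.Realize, BoundedFormula.realize_all]
      intro u
      rw [BoundedFormula.realize_all]
      intro v
      rw [BoundedFormula.realize_imp, BoundedFormula.realize_ex]
      intro huv
      have huv' : (u : M) < v := huv
      obtain ⟨z, hz⟩ := hP.exists_add u v huv'.le
      have hzI : z ∈ I := by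
        obtain ⟨i, hi⟩ := (hI v).1 v.2
        refine (hI z).2 ⟨i, lt_of_le_of_lt ?_ hi⟩
        rw [hz]
        exact le_add_of_nonneg_left (hP.zero_le _)
      refine ⟨⟨z, hzI⟩, ?_⟩
      apply Subtype.ext
      change (u : M) + z = v
      exact hz.symm
  · refine realize_induction φ ?_
    intro p h0 h1 a
    let g : Fin m ⊕ Unit → Empty ⊕ Fin (m + 1) :=
      Sum.elim (fun j => Sum.inr j.castSucc) fun _ => Sum.inr (Fin.last m)
    let φ' : LA.BoundedFormula Empty (m + 1) := BoundedFormula.relabel (k := 0) g φ
    have hφ' : ∀ y : I, φ'.Realize Empty.elim (Fin.snoc p y : Fin (m + 1) → I) ↔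
        φ.Realize (Sum.elim p fun _ => y) := by
      intro y
      change (BoundedFormula.relabel (k := 0) g φ).Realize Empty.elim
        (Fin.snoc p y : Fin (m + 1) → I) ↔ _
      rw [BoundedFormula.realize_relabel, Formula.Realize]
      refine iff_of_eq ?_
      congr 1
      · funext c
        rcases c with c | c
        · change (Fin.snoc p y : Fin (m + 1) → I) c.castSucc = p c
          rw [Fin.snoc_castSucc]
        · change (Fin.snoc p y : Fin (m + 1) → I) (Fin.last m) = y
          rw [Fin.snoc_last]
      · funext c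
        exact c.elim0
    obtain ⟨i0, hi0⟩ := (hI a).1 a.2
    choose ip hip using fun j => (hI (p j)).1 (p j).2
    obtain ⟨i1, hi1⟩ : ∃ i1, ∀ j, ip j ≤ i1 := by
      refine ⟨Finset.univ.sup ip, fun j => Finset.le_sup (Finset.mem_univ j)⟩
    obtain ⟨i, hpi, hai⟩ : ∃ i, (∀ j, (p j : M) < x i) ∧ (a : M) + 1 < x i := by
      refine ⟨max i1 (max i0 1 + 1), fun j => ?_, ?_⟩
      · exact lt_of_lt_of_le (hip j) (hmono.monotone (le_trans (hi1 j) (le_max_left _ _)))
      · refine lt_of_lt_of_le (hgrow (max i0 1) a (lt_of_lt_of_le hi0 (hmono.monotone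
          (le_max_left _ _))) 1 (lt_of_lt_of_le h1x (hmono.monotone (le_max_right _ _)))).1
          (hmono.monotone (le_max_right _ _))
    obtain ⟨ψ, hψ⟩ := hF (m + 1) φ'
    let ys : ℕ → M := fun r => x (i + 1 + r)
    let Q : M → Prop := fun y => Bd φ' ys (Fin.snoc (fun j => (p j : M)) y : Fin (m + 1) → M)
    have hQ : ∀ y : M, ∀ hy : y ≤ a, ∀ hyI : y ∈ I,
        (Q y ↔ φ.Realize (Sum.elim p fun _ => (⟨y, hyI⟩ : I))) := by
      intro y hy hyI
      rw [← hφ' ⟨y, hyI⟩, hTI (m + 1) φ' i (Fin.snoc p (⟨y, hyI⟩ : I) : Fin (m + 1) → I)]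
      · change Bd φ' ys (Fin.snoc (fun j => (p j : M)) y : Fin (m + 1) → M) ↔ Bd φ' ys _
        refine iff_of_eq ?_
        congr 1
        funext c
        refine Fin.lastCases ?_ (fun c => ?_) c
        · rw [Fin.snoc_last, Fin.snoc_last]
        · rw [Fin.snoc_castSucc, Fin.snoc_castSucc]
      · intro c
        refine Fin.lastCases ?_ (fun c => ?_) c
        · rw [Fin.snoc_last]
          exact lt_of_le_of_lt hy (lt_of_le_of_lt (le_add_of_nonneg_right zero_le_one) hai)
        · rw [Fin.snoc_castSucc]
          exact hpi c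
    have hQd : Dfn (fun v : Unit → M => Q (v ())) := by
      have h2 : Dfn (fun u : (Fin (m + 1) ⊕ ℕ) → M => ψ.Realize u) :=
        ⟨ψ.relabel Sum.inl, fun v => by rw [Formula.realize_relabel]; rfl⟩
      have h3 : ∀ c : Fin (m + 1) ⊕ ℕ, Tm (M := M) (α := Unit)
          ((Sum.elim (fun c v => (Fin.snoc (fun j => (p j : M)) (v ()) : Fin (m + 1) → M) c)
            (fun r _ => ys r) : Fin (m + 1) ⊕ ℕ → (Unit → M) → M) c) := by
        rintro (c | r)
        · refine Fin.lastCases ?_ (fun c => ?_) c
          · simp only [Sum.elim_inl, Fin.snoc_last]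
            exact Tm.var ()
          · simp only [Sum.elim_inl, Fin.snoc_castSucc]
            exact Tm.par _
        · exact Tm.par _
      refine (h2.subst h3).congr fun v => ?_
      change _ ↔ Bd φ' ys (Fin.snoc (fun j => (p j : M)) (v ()) : Fin (m + 1) → M)
      rw [← hψ M _ ys]
      refine iff_of_eq ?_
      congr 1
      funext c
      rcases c with c | c <;> rfl
    have hQd' : Dfn (fun v : Unit → M => v () ≤ (a : M) → Q (v ())) :=
      (Dfn.le (Tm.var ()) (Tm.par _)).imp hQd
    have hmem : ∀ y : M, y ≤ a → y ∈ I := fun y hy => (hI y).2 ⟨i0, lt_of_le_of_lt hy hi0⟩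
    have hfin := hP.ind (fun y => y ≤ (a : M) → Q y) hQd' (by
      intro hy
      rw [hQ 0 hy (hmem 0 hy)]
      convert h0 using 2
      funext _; rfl) (by
      intro y hy hy1
      have hy0 : y ≤ a := le_trans (le_add_of_nonneg_right zero_le_one) hy1
      rw [hQ (y + 1) hy1 (hmem _ hy1)]
      have h2 := (hQ y hy0 (hmem y hy0)).1 (hy hy0)
      have h3 := h1 ⟨y, hmem y hy0⟩ h2
      convert h3 using 2
      funext _; rfl) a le_rfl
    have h5 := (hQ a le_rfl a.2).1 hfin
    exact h5

end Pool.Agent.Helper62.LT

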