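import Pool.Agent.Helper81.LT.Mod

/-!
MP_c20641_lc, packet SURK: every elementary substructure of the definable ultrapower is `K_s`.
-/

namespace Pool.Agent.Helper62.LT

open FirstOrder Language Pool.Agent.Helper81.LT

attribute [local instance] stdStr

variable {M : Type} [CommSemiring M] [LinearOrder M]

omit [CommSemiring M] [LinearOrder M] in
theorem cls_congr {U : Ultrafilter M} {f g : M → M} (h : ∀ᶠ u in U, f u = g u) :
    cls U f = cls U g :=
  Quotient.sound' h

/-- definable least witnesses -/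
theorem least_fun [IsStrictOrderedRing M] [PAM M] (hO : OVER) {k : ℕ} (R : (Fin k → M) → M → Prop)
    (hR : Dfn (fun v : Fin (k + 1) → M => R (fun i => v i.castSucc) (v (Fin.last k)))) :
    ∃ g : (Fin k → M) → M,
      Dfn (fun v : Fin (k + 1) → M => g (fun i => v i.castSucc) = v (Fin.last k)) ∧
      ∀ x, (∃ w, R x w) → R x (g x) := by
  classical
  have hun : ∀ x : Fin k → M, Dfn (fun v : Unit → M => R x (v ())) := by
    intro x
    have h1 : ∀ b : Fin (k + 1), Tm (M := M) (α := Unit)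
        ((Fin.lastCases (fun v => v ()) (fun i _ => x i) :
          Fin (k + 1) → (Unit → M) → M) b) := by
      intro b
      refine Fin.lastCases ?_ (fun i => ?_) b
      · beta_reduce; rw [Fin.lastCases_last]; exact Tm.var ()
      · beta_reduce; rw [Fin.lastCases_castSucc]; exact Tm.par _
    refine (hR.subst h1).congr fun v => ?_
    simp only [Fin.lastCases_last, Fin.lastCases_castSucc]
  have hle : ∀ x : Fin k → M, (∃ w, R x w) → ∃ w, R x w ∧ ∀ y, y < w → ¬ R x y := fun x hx =>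
    (hO M).1 (R x) (hun x) hx
  let g : (Fin k → M) → M := fun x => if hx : ∃ w, R x w then (hle x hx).choose else 0
  have hg : ∀ x w, g x = w ↔ ((R x w ∧ ∀ y, y < w → ¬ R x y) ∨ ((∀ y, ¬ R x y) ∧ w = 0)) := by
    intro x w
    by_cases hx : ∃ w, R x w
    · have h1 : g x = (hle x hx).choose := dif_pos hx
      have h2 := (hle x hx).choose_spec
      rw [← h1] at h2
      constructor
      · rintro rfl
        exact Or.inl h2
      · rintro (h3 | h3)
        · rcases lt_trichotomy (g x) w with h | h | h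
          · exact absurd h2.1 (h3.2 _ h)
          · exact h
          · exact absurd h3.1 (h2.2 _ h)
        · obtain ⟨w, hw⟩ := hx
          exact absurd hw (h3.1 w)
    · have h1 : g x = 0 := dif_neg hx
      rw [h1]
      constructor
      · rintro rfl
        exact Or.inr ⟨fun y hy => hx ⟨y, hy⟩, rfl⟩
      · rintro (h3 | h3)
        · exact absurd ⟨w, h3.1⟩ hx
        · exact h3.2.symm
  refine ⟨g, ?_, fun x hx => ?_⟩
  · have hR' : Dfn (fun u : Fin (k + 1) ⊕ Unit → M =>
        R (fun i => u (Sum.inl i.castSucc)) (u (Sum.inr ()))) := by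
      refine (hR.comp (α := Fin (k + 1) ⊕ Unit) (Fin.lastCases (Sum.inr ())
        (fun i => Sum.inl i.castSucc))).congr fun v => ?_
      simp only [Fin.lastCases_last, Fin.lastCases_castSucc]
    refine Dfn.congr (P := fun v : Fin (k + 1) → M =>
      ((R (fun i => v i.castSucc) (v (Fin.last k)) ∧
        ∀ y, y < v (Fin.last k) → ¬ R (fun i => v i.castSucc) y) ∨
        ((∀ y, ¬ R (fun i => v i.castSucc) y) ∧ v (Fin.last k) = 0))) ?_
      (fun v => (hg _ _).symm)
    refine Dfn.or (Dfn.and hR (Dfn.ball (P := fun v y => ¬ R (fun i => v i.castSucc) y)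
      (Tm.var _) hR'.not)) (Dfn.and (Dfn.all (P := fun v y => ¬ R (fun i => v i.castSucc) y)
      hR'.not) (Dfn.eq (Tm.var _) Tm.zero))
  · rcases (hg x (g x)).1 rfl with h | h
    · exact h.1
    · obtain ⟨w, hw⟩ := hx
      exact absurd hw (h.1 w)

theorem surk (hO : OVER) (hR : RS) (hK : KCL) : SURK := by
  intro Λ _ _ _ _ M _ _ _ _ hdef t D hT hG U hU K hKs
  choose r hrF hr1 hr2 using fun s => hR Λ M t hT s
  have hriff : ∀ s u v, s ≤ t u v ↔ r s u = r s v := by
    intro s u v
    refine ⟨hr2 s u v, fun h => ?_⟩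
    have h1 := hr1 s u
    have h2 := hr1 s v
    rw [← h, hT.symm] at h2
    exact le_trans (le_inf h1 h2) (hT.tri _ _ _)
  -- closure under unary definable functions
  have kcl1 : ∀ g : M → M, DefF g → ∀ f : M → M, cls U f ∈ K → cls U (fun v => g (f v)) ∈ K := by
    intro g hg f hf
    exact hK M hdef U K 1 (fun x => g (x 0)) hg (fun _ => f) (fun _ => hf)
  let S : Set Λ := {s | cls U (r s) ∈ K}
  have hbot : (⊥ : Λ) ∈ S := by
    have h1 := hK M hdef U K 0 (fun _ => r ⊥ 0) (Dfn.eq (Tm.par _) (Tm.var _)) (fun _ => id)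
      (fun i => i.elim0)
    have h2 : (fun _ : M => r ⊥ 0) = r ⊥ := funext fun v => hr2 ⊥ 0 v bot_le
    change cls U (r ⊥) ∈ K
    rw [← h2]
    exact h1
  have hsup : ∀ s ∈ S, ∀ s' ∈ S, s ⊔ s' ∈ S := by
    intro s hs s' hs'
    obtain ⟨g, hg, hgl⟩ := least_fun hO (k := 2)
      (fun x w => w = r (s ⊔ s') w ∧ s ≤ t (x 0) w ∧ s' ≤ t (x 1) w) (by
        have h1 : Dfn (fun v : Fin 3 → M => v 2 = r (s ⊔ s') (v 2)) :=
          ((hrF (s ⊔ s')).comp (α := Fin 3) ![2, 2]).congr fun v => by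
            change r (s ⊔ s') (v 2) = v 2 ↔ v 2 = r (s ⊔ s') (v 2)
            exact eq_comm
        have h2 : Dfn (fun v : Fin 3 → M => s ≤ t (v 0) (v 2)) :=
          (hT.dfn s).comp (α := Fin 3) ![0, 2]
        have h3 : Dfn (fun v : Fin 3 → M => s' ≤ t (v 1) (v 2)) :=
          (hT.dfn s').comp (α := Fin 3) ![1, 2]
        exact h1.and (h2.and h3))
    have h1 := hK M hdef U K 2 g hg ![r s, r s'] (by
      intro i
      fin_cases i
      · exact hs
      · exact hs')
    have h2 : (fun v => g fun i => (![r s, r s'] : Fin 2 → M → M) i v) = r (s ⊔ s') := by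
      funext v
      have h3 := hgl (fun i => (![r s, r s'] : Fin 2 → M → M) i v) ⟨r (s ⊔ s') v, ?_, ?_, ?_⟩
      · obtain ⟨h4, h5, h6⟩ := h3
        generalize (g fun i => (![r s, r s'] : Fin 2 → M → M) i v) = w at h4 h5 h6 ⊢
        change s ≤ t (r s v) w at h5
        change s' ≤ t (r s' v) w at h6
        rw [h4]
        symm
        apply hr2
        refine sup_le ?_ ?_
        · exact le_trans (le_inf (hr1 s v) h5) (hT.tri _ _ _)
        · exact le_trans (le_inf (hr1 s' v) h6) (hT.tri _ _ _)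
      · exact hr2 _ _ _ (hr1 _ _)
      · change s ≤ t (r s v) (r (s ⊔ s') v)
        have h5 := hr1 s v
        rw [hT.symm] at h5
        exact le_trans (le_inf h5 (le_trans le_sup_left (hr1 (s ⊔ s') v))) (hT.tri _ _ _)
      · change s' ≤ t (r s' v) (r (s ⊔ s') v)
        have h5 := hr1 s' v
        rw [hT.symm] at h5
        exact le_trans (le_inf h5 (le_trans le_sup_right (hr1 (s ⊔ s') v))) (hT.tri _ _ _)
    change cls U (r (s ⊔ s')) ∈ K
    rw [← h2]
    exact h1
  obtain ⟨m, hm⟩ := (Set.toFinite S).exists_maximal ⟨⊥, hbot⟩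
  have hmS : cls U (r m) ∈ K := hm.prop
  have hmax : ∀ s, cls U (r s) ∈ K → s ≤ m := fun s hs =>
    le_trans le_sup_right (hm.le_of_ge (hsup m hm.prop s hs) le_sup_left)
  -- definable preimages in `D n`
  have hpre : ∀ (n : ℕ) (f : M → M), DefF f → ∃ g : M → M, DefF g ∧
      ∀ v, D n v → D n (g (f v)) ∧ f (g (f v)) = f v := by
    intro n f hf
    obtain ⟨g, hg, hgl⟩ := least_fun hO (k := 1) (fun x u => D n u ∧ f u = x 0) (by
      have h1 : Dfn (fun v : Fin 2 → M => D n (v 1)) := Dfn.app₁ (hG.dfn n) (Tm.var 1)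
      have h2 : Dfn (fun v : Fin 2 → M => f (v 1) = v 0) := hf.comp (α := Fin 2) ![1, 0]
      exact h1.and h2)
    have hg' : DefF (fun y => g fun _ => y) := hg.congr fun v => by
      have h3 : (fun i : Fin 1 => v i.castSucc) = fun _ => v 0 := by
        funext i
        rw [Subsingleton.elim i 0]
        rfl
      rw [h3]
      exact Iff.rfl
    refine ⟨fun y => g fun _ => y, hg', fun v hv => ?_⟩
    exact hgl (fun _ => f v) ⟨v, hv, rfl⟩
  refine ⟨m, fun z => ⟨fun hz => ?_, ?_⟩⟩
  · obtain ⟨f, hf, rfl⟩ := hKs z hz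
    refine ⟨f, hf, ?_, rfl⟩
    obtain ⟨n, s, hns⟩ := hG.canon (Setoid.ker f) (by
      have h1 : Dfn (fun u : Fin 2 ⊕ Unit → M => f (u (Sum.inl 0)) = u (Sum.inr ())) :=
        hf.comp (α := Fin 2 ⊕ Unit) ![Sum.inl 0, Sum.inr ()]
      have h2 : Dfn (fun u : Fin 2 ⊕ Unit → M => f (u (Sum.inl 1)) = u (Sum.inr ())) :=
        hf.comp (α := Fin 2 ⊕ Unit) ![Sum.inl 1, Sum.inr ()]
      refine (Dfn.ex (P := fun (v : Fin 2 → M) y => f (v 0) = y ∧ f (v 1) = y)
        (h1.and h2)).congr fun v => ?_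
      constructor
      · rintro ⟨y, h1, h2⟩
        exact h1.trans h2.symm
      · intro h
        exact ⟨f (v 1), h, rfl⟩)
    have hns' : ∀ u v, D n u → D n v → (f u = f v ↔ s ≤ t u v) := hns
    obtain ⟨g, hg, hgl⟩ := hpre n f hf
    have h1 : cls U (fun v => r s (g (f v))) ∈ K := kcl1 (r s) (hrF s) _ (kcl1 g hg f hz)
    have h2 : cls U (fun v => r s (g (f v))) = cls U (r s) := by
      refine cls_congr ((hU n).mono fun v hv => ?_)
      obtain ⟨h3, h4⟩ := hgl v hv
      exact hr2 _ _ _ ((hns' _ _ h3 hv).1 h4)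
    rw [h2] at h1
    have h5 := hmax s h1
    exact ⟨n, fun u v hu hv h => (hns' u v hu hv).2 (le_trans h5 h)⟩
  · rintro ⟨f, hf, ⟨n, hn⟩, rfl⟩
    obtain ⟨g, hg, hgl⟩ := hpre n (r m) (hrF m)
    have h1 : cls U (fun v => f (g (r m v))) ∈ K := kcl1 f hf _ (kcl1 g hg (r m) hmS)
    have h2 : cls U (fun v => f (g (r m v))) = cls U f := by
      refine cls_congr ((hU n).mono fun v hv => ?_)
      obtain ⟨h3, h4⟩ := hgl v hv
      exact hn _ _ h3 hv ((hriff _ _ _).2 h4)
    rw [h2] at h1
    exact h1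

end Pool.Agent.Helper62.LT

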